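import Pool.Agent.P.MP_b2082d_co.Defs

namespace Pool.Agent.P.MP_b2082d_co

open Finset

variable {V ι : Type} [Fintype V] [DecidableEq V]

lemma card_le_sum_countP (F : Multiset (Finset V)) (e : Finset V)
    (h : ∀ T ∈ F, (T ∩ e).Nonempty) :
    Multiset.card F ≤ ∑ v ∈ e, F.countP fun T => v ∈ T := by
  induction F using Multiset.induction_on with
  | empty => simp
  | cons T F ih =>
    have h1 := ih (fun S hS => h S (Multiset.mem_cons_of_mem hS))
    obtain ⟨v, hv⟩ := h T (Multiset.mem_cons_self _ _)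
    rw [mem_inter] at hv
    simp only [Multiset.card_cons, Multiset.countP_cons, sum_add_distrib]
    have : 1 ≤ ∑ x ∈ e, if x ∈ T then 1 else 0 := by
      have := single_le_sum (f := fun x => if x ∈ T then 1 else 0) (fun _ _ => Nat.zero_le _) hv.2
      simpa [hv.1] using this
    omega

lemma countP_le_maxMult (F : Multiset (Finset V)) (v : V) :
    (F.countP fun T => v ∈ T) ≤ maxMult F :=
  le_sup (f := fun v : V => F.countP fun T => v ∈ T) (mem_univ v)

lemma card_le_mul (E : ι → Finset V) (i : ι) (F : Multiset (Finset V))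
    (h : ∀ T ∈ F, IsTransversal E T) : Multiset.card F ≤ (E i).card * maxMult F := by
  refine (card_le_sum_countP F (E i) fun T hT => h T hT i).trans ?_
  have := sum_le_card_nsmul (E i) (fun v => F.countP fun T => v ∈ T) (maxMult F)
    (fun v _ => countP_le_maxMult F v)
  simpa using this

/-- a family with all multiplicities at most `c` times its size shows `1 / c ≤ FDT`. -/
lemma le_FDT (E : ι → Finset V) (i : ι) (F : Multiset (Finset V)) (hF : F ≠ 0)
    (h : ∀ T ∈ F, IsTransversal E T) (c : ℚ) (hc : 0 < c)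
    (hm : ∀ v, ((F.countP fun T => v ∈ T : ℕ) : ℚ) ≤ c * Multiset.card F) :
    ((1 / c : ℚ) : ℝ) ≤ FDT E := by
  have hbdd : BddAbove {x : ℝ | ∃ F : Multiset (Finset V), F ≠ 0 ∧ (∀ T ∈ F, IsTransversal E T) ∧
      x = (Multiset.card F : ℝ) / (maxMult F : ℝ)} := by
    refine ⟨(E i).card, ?_⟩
    rintro x ⟨G, -, hG, rfl⟩
    have := card_le_mul E i G hG
    apply div_le_of_le_mul₀ (by positivity) (by positivity)
    exact_mod_cast this
  refine le_trans ?_ (le_csSup hbdd ⟨F, hF, h, rfl⟩)
  have hcard : 0 < Multiset.card F := Multiset.card_pos.mpr hF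
  have hle := card_le_mul E i F h
  have hpos : 0 < maxMult F := by
    rcases Nat.eq_zero_or_pos (maxMult F) with h0 | h0
    · rw [h0] at hle; omega
    · exact h0
  have hne : (univ : Finset V).Nonempty := by
    by_contra h0
    rw [not_nonempty_iff_eq_empty] at h0
    simp [maxMult, h0] at hpos
  obtain ⟨v, -, hv⟩ := exists_mem_eq_sup univ hne (fun v : V => F.countP fun T => v ∈ T)
  have h1 : (maxMult F : ℚ) ≤ c * Multiset.card F := by
    have := hm v
    rw [← hv] at this
    exact this
  have h2 : (1 / c : ℚ) ≤ (Multiset.card F : ℚ) / (maxMult F : ℚ) := by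
    rw [div_le_div_iff₀ hc (by exact_mod_cast hpos)]
    linarith
  have h3 : ((1 / c : ℚ) : ℝ) ≤ (((Multiset.card F : ℚ) / (maxMult F : ℚ) : ℚ) : ℝ) := by
    exact_mod_cast h2
  simpa using h3

end Pool.Agent.P.MP_b2082d_co
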