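import Pool.Agent.P.MP_b2082d_co.Basic

set_option linter.unusedSectionVars false

namespace Pool.Agent.P.MP_b2082d_co

open Finset

variable {V ι : Type} [Fintype V] [DecidableEq V] [Fintype ι] [DecidableEq ι]

def fct : ℕ → ℚ
  | 0 => 0
  | 1 => 1 / 4
  | 2 => 5 / 14
  | 3 => 59 / 140
  | _ => 212 / 455

lemma fct_key (d c : ℕ) (hd1 : 1 ≤ d) (hd : d ≤ 4) (hc : c ≤ d) :
    (c : ℚ) * (1 - fct d) ≤ 3 * d * (fct d - fct (d - c)) := by
  interval_cases d <;> interval_cases c <;> norm_num [fct]

lemma fct_le (d : ℕ) : fct d ≤ 212 / 455 := by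
  match d with
  | 0 => norm_num [fct]
  | 1 => norm_num [fct]
  | 2 => norm_num [fct]
  | 3 => norm_num [fct]
  | (_ + 4) => exact le_rfl

def dg (E : ι → Finset V) (S : Finset ι) (u : V) : ℕ := (S.filter fun i => u ∈ E i).card

lemma codeg_sum (E : ι → Finset V) (hu : ∀ i, (E i).card = 4) (S : Finset ι) (u : V) :
    ∑ v ∈ univ.erase u, (S.filter fun i => u ∈ E i ∧ v ∈ E i).card = 3 * dg E S u := by
  have h1 : ∀ v, (S.filter fun i => u ∈ E i ∧ v ∈ E i).card
      = ∑ i ∈ S.filter (fun i => u ∈ E i), if v ∈ E i then 1 else 0 := by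
    intro v
    rw [← filter_filter, card_filter]
  simp only [h1]
  rw [sum_comm]
  have h2 : ∀ i ∈ S.filter (fun i => u ∈ E i),
      (∑ v ∈ univ.erase u, if v ∈ E i then 1 else 0) = 3 := by
    intro i hi
    rw [mem_filter] at hi
    rw [← card_filter]
    have : (univ.erase u).filter (fun v => v ∈ E i) = (E i).erase u := by
      ext v; simp
    rw [this, card_erase_of_mem hi.2, hu]
  rw [sum_congr rfl h2]
  simp [dg, mul_comm]

lemma ct_main (E : ι → Finset V) (hu : ∀ i, (E i).card = 4) (n : ℕ) :
    ∀ S : Finset ι, S.card ≤ n → (∀ u, dg E S u ≤ 4) →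
      ∃ F : Multiset (Finset V), F ≠ 0 ∧ (∀ T ∈ F, ∀ i ∈ S, (T ∩ E i).Nonempty) ∧
        ∀ u, ((F.countP fun T => u ∈ T : ℕ) : ℚ) ≤ fct (dg E S u) * Multiset.card F := by
  induction n with
  | zero =>
    intro S hS _
    have : S = ∅ := card_eq_zero.mp (by omega)
    subst this
    exact ⟨{∅}, by simp, by simp, by simp [dg, fct]⟩
  | succ n ih =>
    intro S hS hdeg
    rcases S.eq_empty_or_nonempty with rfl | hne
    · exact ⟨{∅}, by simp, by simp, by simp [dg, fct]⟩
    set W : Finset V := univ.filter fun v => 1 ≤ dg E S v with hW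
    have hWne : W.Nonempty := by
      obtain ⟨i, hi⟩ := hne
      have : (E i).Nonempty := card_pos.mp (by rw [hu]; norm_num)
      obtain ⟨v, hv⟩ := this
      refine ⟨v, ?_⟩
      simp only [hW, mem_filter, mem_univ, true_and, dg]
      exact card_pos.mpr ⟨i, by simp [hi, hv]⟩
    have hstep : ∀ v : V, ∃ F : Multiset (Finset V), v ∈ W → (F ≠ 0 ∧
        (∀ T ∈ F, ∀ i ∈ S.filter (fun i => v ∉ E i), (T ∩ E i).Nonempty) ∧
        ∀ u, ((F.countP fun T => u ∈ T : ℕ) : ℚ) ≤
          fct (dg E (S.filter fun i => v ∉ E i) u) * Multiset.card F) := by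
      intro v
      by_cases hv : v ∈ W
      · have h1 : 1 ≤ dg E S v := by simpa [hW] using hv
        have h2 := card_filter_add_card_filter_not (s := S) (fun i => v ∈ E i)
        obtain ⟨F, hF⟩ := ih (S.filter fun i => v ∉ E i) (by unfold dg at h1; omega) (by
          intro u
          refine le_trans ?_ (hdeg u)
          exact card_le_card (filter_subset_filter _ (filter_subset _ _)))
        exact ⟨F, fun _ => hF⟩
      · exact ⟨0, fun h => absurd h hv⟩
    choose G hG using hstep
    set P : ℕ := ∏ v ∈ W, Multiset.card (G v) with hP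
    set Q : V → ℕ := fun v => ∏ x ∈ W.erase v, Multiset.card (G x) with hQ
    have hQP : ∀ v ∈ W, Q v * Multiset.card (G v) = P := fun v hv => prod_erase_mul _ _ hv
    have hPpos : 0 < P := prod_pos fun v hv => Multiset.card_pos.mpr (hG v hv).1
    set F : Multiset (Finset V) := ∑ v ∈ W, Q v • (G v).map (insert v) with hF
    have hcard : Multiset.card F = W.card * P := by
      rw [hF, Multiset.card_sum]
      rw [sum_congr rfl (g := fun _ => P)]
      · simp
      · intro v hv
        rw [Multiset.card_nsmul, Multiset.card_map, hQP v hv]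
    refine ⟨F, ?_, ?_, ?_⟩
    · rw [← Multiset.card_pos, hcard]
      exact Nat.mul_pos (card_pos.mpr hWne) hPpos
    · intro T hT i hi
      rw [hF, Multiset.mem_sum] at hT
      obtain ⟨v, hv, hT⟩ := hT
      have := Multiset.mem_of_mem_nsmul hT
      rw [Multiset.mem_map] at this
      obtain ⟨T', hT', rfl⟩ := this
      by_cases hvi : v ∈ E i
      · exact ⟨v, by simp [hvi]⟩
      · obtain ⟨x, hx⟩ := (hG v hv).2.1 T' hT' i (by simp [hi, hvi])
        rw [mem_inter] at hx
        exact ⟨x, by simp [hx.1, hx.2]⟩
    · intro u
      have hcount : ((F.countP fun T => u ∈ T : ℕ) : ℚ) =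
          ∑ v ∈ W, (Q v : ℚ) * (((G v).map (insert v)).countP fun T => u ∈ T : ℕ) := by
        rw [hF]
        have : ∀ s : Finset V, (∑ v ∈ s, Q v • (G v).map (insert v)).countP (fun T => u ∈ T)
            = ∑ v ∈ s, Q v * (((G v).map (insert v)).countP fun T => u ∈ T) := by
          intro s
          induction s using Finset.induction_on with
          | empty => simp
          | insert a s ha ihs =>
            rw [sum_insert ha, sum_insert ha, Multiset.countP_add, ihs, Multiset.countP_nsmul]
        rw [this]
        push_cast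
        rfl
      have hterm : ∀ v ∈ W, v ≠ u →
          (Q v : ℚ) * (((G v).map (insert v)).countP fun T => u ∈ T : ℕ) ≤
            P * fct (dg E (S.filter fun i => v ∉ E i) u) := by
        intro v hv hvu
        have h1 : (((G v).map (insert v)).countP fun T => u ∈ T)
            = (G v).countP fun T => u ∈ T := by
          rw [Multiset.countP_map, Multiset.countP_eq_card_filter]
          congr 1
          apply Multiset.filter_congr
          intro T _
          simp [hvu.symm]
        rw [h1]
        have h2 := (hG v hv).2.2 u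
        have h3 : (P : ℚ) = Q v * Multiset.card (G v) := by exact_mod_cast (hQP v hv).symm
        rw [h3]
        have h4 : (0 : ℚ) ≤ Q v := by positivity
        nlinarith [mul_le_mul_of_nonneg_left h2 h4]
      have hdd : ∀ v, dg E (S.filter fun i => v ∉ E i) u
          = dg E S u - (S.filter fun i => u ∈ E i ∧ v ∈ E i).card := by
        intro v
        have := card_filter_add_card_filter_not (s := S.filter fun i => u ∈ E i) (fun i => v ∈ E i)
        rw [filter_filter, filter_filter] at this
        unfold dg
        rw [filter_filter]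
        have h5 : (S.filter fun i => v ∉ E i ∧ u ∈ E i) = S.filter fun i => u ∈ E i ∧ v ∉ E i := by
          congr 1; ext i; tauto
        rw [h5]
        omega
      have hcle : ∀ v, (S.filter fun i => u ∈ E i ∧ v ∈ E i).card ≤ dg E S u := by
        intro v
        apply card_le_card
        intro i hi
        simp only [mem_filter] at hi ⊢
        tauto
      rw [hcount, hcard]
      by_cases huW : u ∈ W
      · have hd1 : 1 ≤ dg E S u := by simpa [hW] using huW
        set d := dg E S u with hd
        rw [← add_sum_erase _ _ huW]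
        have hu1 : (Q u : ℚ) * (((G u).map (insert u)).countP fun T => u ∈ T : ℕ) ≤ P := by
          have h1 := Multiset.countP_le_card (fun T => u ∈ T) ((G u).map (insert u))
          rw [Multiset.card_map] at h1
          have h2 := Nat.mul_le_mul_left (Q u) h1
          rw [hQP u huW] at h2
          exact_mod_cast h2
        have hu2 : ∑ v ∈ W.erase u,
            (Q v : ℚ) * (((G v).map (insert v)).countP fun T => u ∈ T : ℕ) ≤
            ∑ v ∈ W.erase u, P * fct (d - (S.filter fun i => u ∈ E i ∧ v ∈ E i).card) := by
          apply sum_le_sum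
          intro v hv
          rw [mem_erase] at hv
          have := hterm v hv.2 hv.1
          rwa [hdd] at this
        have hsum : ∑ v ∈ W.erase u, (S.filter fun i => u ∈ E i ∧ v ∈ E i).card = 3 * d := by
          rw [← codeg_sum E hu S u]
          apply sum_subset (erase_subset_erase _ (subset_univ _))
          intro v hv hv'
          have : v ∉ W := by
            intro h; exact hv' (by rw [mem_erase] at hv ⊢; exact ⟨hv.1, h⟩)
          have h0 : dg E S v = 0 := by
            simp only [hW, mem_filter, mem_univ, true_and] at this; omega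
          unfold dg at h0
          rw [card_eq_zero] at h0 ⊢
          rw [filter_eq_empty_iff] at h0 ⊢
          intro i hi h
          exact h0 hi h.2
        have hk : ∑ v ∈ W.erase u, ((S.filter fun i => u ∈ E i ∧ v ∈ E i).card : ℚ) * (1 - fct d) ≤
            ∑ v ∈ W.erase u,
              3 * d * (fct d - fct (d - (S.filter fun i => u ∈ E i ∧ v ∈ E i).card)) :=
          sum_le_sum fun v _ => fct_key d _ hd1 (hdeg u) (hcle v)
        rw [← sum_mul, ← Nat.cast_sum, hsum, ← mul_sum, sum_sub_distrib] at hk
        rw [← mul_sum] at hu2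
        simp only [sum_const, card_erase_of_mem huW, nsmul_eq_mul] at hk
        have hWc : 1 ≤ W.card := card_pos.mpr hWne
        rw [Nat.cast_sub hWc] at hk
        push_cast at hk ⊢
        have hd' : (0 : ℚ) < 3 * d := by
          have : (1 : ℚ) ≤ d := by exact_mod_cast hd1
          linarith
        have hk2 := le_of_mul_le_mul_left hk hd'
        have hP' : (0 : ℚ) ≤ P := by positivity
        nlinarith [mul_le_mul_of_nonneg_left hk2 hP']
      · have hd0 : dg E S u = 0 := by
          simp only [hW, mem_filter, mem_univ, true_and] at huW; omega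
        rw [hd0]
        have : ∑ v ∈ W, (Q v : ℚ) * (((G v).map (insert v)).countP fun T => u ∈ T : ℕ) ≤
            ∑ v ∈ W, (0 : ℚ) := by
          apply sum_le_sum
          intro v hv
          have := hterm v hv (fun h => huW (h ▸ hv))
          rw [hdd, hd0] at this
          simpa [fct] using this
        simpa [fct] using this

theorem ct_bound [Nonempty ι] (E : ι → Finset V) (hu : ∀ i, (E i).card = 4)
    (hr : ∀ v, (univ.filter fun i => v ∈ E i).card ≤ 4) : (455 / 212 : ℝ) ≤ FDT E := by
  obtain ⟨F, hF, hT, hc⟩ := ct_main E hu _ univ le_rfl hr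
  have := le_FDT E (Classical.arbitrary ι) F hF (fun T h i => hT T h i (mem_univ i))
    (212 / 455) (by norm_num) (fun v => (hc v).trans
      (mul_le_mul_of_nonneg_right (fct_le _) (by positivity)))
  norm_num at this
  exact this

end Pool.Agent.P.MP_b2082d_co
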