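import Mathlib

namespace Pool.Agent.P.MP_b2082d_co

/-- `T` meets every edge of the hypergraph whose edges are the sets `E i`. -/
def IsTransversal {V ι : Type} [DecidableEq V] (E : ι → Finset V) (T : Finset V) : Prop :=
  ∀ i, (T ∩ E i).Nonempty

/-- The largest number of members of the family `F` that contain a common vertex. -/
def maxMult {V : Type} [Fintype V] [DecidableEq V] (F : Multiset (Finset V)) : ℕ :=
  Finset.univ.sup fun v : V => F.countP fun T => v ∈ T

/-- The fractional disjoint transversal number. -/
noncomputable def FDT {V ι : Type} [Fintype V] [DecidableEq V] (E : ι → Finset V) : ℝ :=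
  sSup {x : ℝ | ∃ F : Multiset (Finset V), F ≠ 0 ∧ (∀ T ∈ F, IsTransversal E T) ∧
    x = (Multiset.card F : ℝ) / (maxMult F : ℝ)}

end Pool.Agent.P.MP_b2082d_co
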