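import Mathlib

set_option linter.unusedSectionVars false

namespace Pool.Agent.P.MP_b2082d_co

open Finset Function

variable {V α : Type} [Fintype V] [DecidableEq V] [Fintype α] [DecidableEq α] [LinearOrder α]
  [Nonempty α]

/-- uniform average over all labelings -/
def av (f : (V → α) → ℚ) : ℚ := (∑ ω, f ω) / Fintype.card (V → α)

def Mono (i : V) (f : (V → α) → ℚ) : Prop :=
  ∀ ω a b, a ≤ b → f (update ω i a) ≤ f (update ω i b)

def Ind (i : V) (f : (V → α) → ℚ) : Prop := ∀ ω a, f (update ω i a) = f ω

lemma card_pos' : (0 : ℚ) < Fintype.card (V → α) := by exact_mod_cast Fintype.card_pos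

lemma cardα_pos : (0 : ℚ) < Fintype.card α := by exact_mod_cast Fintype.card_pos

lemma sum_swap_coord (i : V) (F : α → (V → α) → ℚ) :
    ∑ a, ∑ η, F a η = ∑ a, ∑ η, F (η i) (update η i a) := by
  rw [← sum_product', ← sum_product']
  simp only [univ_product_univ]
  let σ : α × (V → α) → α × (V → α) := fun p => (p.2 i, update p.2 i p.1)
  have hσ : Function.Involutive σ := by
    rintro ⟨a, η⟩
    simp [σ]
  exact (Equiv.sum_comp hσ.toPerm (fun p => F p.1 p.2)).symm

lemma sum_update (i : V) (f : (V → α) → ℚ) :
    ∑ a, ∑ η, f (update η i a) = Fintype.card α * ∑ η, f η := by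
  have := sum_swap_coord i (fun _ η => f η)
  rw [← this]
  simp

lemma av_cond (i : V) (f : (V → α) → ℚ) :
    av f = (∑ a, av fun ω => f (update ω i a)) / Fintype.card α := by
  unfold av
  rw [← sum_div, sum_update]
  have := cardα_pos (α := α)
  field_simp

lemma av_const (c : ℚ) : av (fun _ : V → α => c) = c := by
  unfold av
  have := card_pos' (V := V) (α := α)
  simp only [sum_const, card_univ, nsmul_eq_mul]
  field_simp

lemma av_mono {f g : (V → α) → ℚ} (h : ∀ ω, f ω ≤ g ω) : av f ≤ av g := by
  unfold av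
  exact div_le_div_of_nonneg_right (sum_le_sum fun ω _ => h ω) card_pos'.le

lemma av_sub (f g : (V → α) → ℚ) : av (fun ω => f ω - g ω) = av f - av g := by
  unfold av
  rw [sum_sub_distrib, sub_div]

lemma av_neg (f : (V → α) → ℚ) : av (fun ω => - f ω) = - av f := by
  unfold av
  rw [sum_neg_distrib, neg_div]

lemma av_nonneg {f : (V → α) → ℚ} (h : ∀ ω, 0 ≤ f ω) : 0 ≤ av f := by
  have := av_mono (f := fun _ => 0) h
  rwa [av_const] at this

lemma av_coord (i : V) (φ : α → ℚ) :
    av (fun ω : V → α => φ (ω i)) = (∑ a, φ a) / Fintype.card α := by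
  rw [av_cond i]
  simp [av_const]

/-- average over the coordinates in `s` -/
def pav (s : Finset V) (f : (V → α) → ℚ) (ω : V → α) : ℚ := av fun η => f (s.piecewise η ω)

lemma piecewise_update {s : Finset V} {i : V} (hi : i ∉ s) (η ω : V → α) (a : α) :
    s.piecewise η (update ω i a) = update (s.piecewise η ω) i a := by
  funext j
  by_cases hj : j = i
  · subst hj; simp [piecewise, hi]
  · by_cases hs : j ∈ s <;> simp [piecewise, hs, hj]

lemma pav_insert {s : Finset V} {i : V} (hi : i ∉ s) (f : (V → α) → ℚ) (ω : V → α) :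
    pav (insert i s) f ω = (∑ a, pav s f (update ω i a)) / Fintype.card α := by
  unfold pav
  rw [av_cond i]
  congr 1
  apply sum_congr rfl
  intro a _
  congr 1
  funext η
  congr 1
  funext j
  by_cases hj : j = i
  · subst hj; simp [piecewise, hi]
  · by_cases hs : j ∈ s <;> simp [piecewise, hs, hj]

lemma harris_aux (f g : (V → α) → ℚ)
    (h : ∀ i, (Mono i f ∧ Mono i g) ∨ Ind i f ∨ Ind i g) (s : Finset V) :
    ∀ ω, pav s f ω * pav s g ω ≤ pav s (fun ω => f ω * g ω) ω := by
  induction s using Finset.induction_on with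
  | empty => intro ω; simp [pav, av_const]
  | insert i s hi ih =>
    intro ω
    rw [pav_insert hi, pav_insert hi, pav_insert hi]
    have hN := cardα_pos (α := α)
    have h1 : ∑ a, pav s f (update ω i a) * pav s g (update ω i a) ≤
        ∑ a, pav s (fun ω => f ω * g ω) (update ω i a) := sum_le_sum fun a _ => ih _
    have hmono : ∀ k : (V → α) → ℚ, Mono i k → Monotone fun a => pav s k (update ω i a) := by
      intro k hk a b hab
      apply av_mono
      intro η
      rw [piecewise_update hi, piecewise_update hi]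
      exact hk _ _ _ hab
    have hind : ∀ k : (V → α) → ℚ, Ind i k → ∀ a, pav s k (update ω i a) = pav s k ω := by
      intro k hk a
      unfold pav
      congr 1
      funext η
      rw [piecewise_update hi, hk]
    have h2 : (∑ a, pav s f (update ω i a)) * (∑ a, pav s g (update ω i a)) ≤
        Fintype.card α * ∑ a, pav s f (update ω i a) * pav s g (update ω i a) := by
      rcases h i with ⟨hf, hg⟩ | hf | hg
      · exact ((hmono f hf).monovary (hmono g hg)).sum_mul_sum_le_card_mul_sum
      · simp only [hind f hf, ← mul_sum, sum_const, card_univ, nsmul_eq_mul]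
        apply le_of_eq; ring
      · simp only [hind g hg, ← sum_mul, sum_const, card_univ, nsmul_eq_mul]
        apply le_of_eq; ring
    rw [div_mul_div_comm, div_le_div_iff₀ (mul_pos hN hN) hN]
    nlinarith [mul_le_mul_of_nonneg_left h1 hN.le, mul_le_mul_of_nonneg_right h2 hN.le]

lemma harris (f g : (V → α) → ℚ)
    (h : ∀ i, (Mono i f ∧ Mono i g) ∨ Ind i f ∨ Ind i g) :
    av f * av g ≤ av fun ω => f ω * g ω := by
  have := harris_aux f g h univ (Classical.arbitrary _)
  simpa [pav] using this

lemma av_mul_indep (f g : (V → α) → ℚ) (h : ∀ i, Ind i f ∨ Ind i g) :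
    (av fun ω => f ω * g ω) = av f * av g := by
  have h1 := harris f g (fun i => Or.inr (h i))
  have h2 := harris f (fun ω => - g ω) (fun i => Or.inr ((h i).imp id (by
    intro hg ω a
    simp only [hg ω a])))
  simp only [mul_neg] at h2
  rw [av_neg, av_neg] at h2
  linarith

lemma Ind.prod {κ : Type} {i : V} {s : Finset κ} {g : κ → (V → α) → ℚ}
    (h : ∀ e ∈ s, Ind i (g e)) : Ind i fun ω => ∏ e ∈ s, g e ω := by
  intro ω a
  exact prod_congr rfl fun e he => h e he ω a

lemma av_prod_indep {κ : Type} [DecidableEq κ] (s : Finset κ) (g : κ → (V → α) → ℚ)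
    (h : ∀ i, ∀ e ∈ s, ∀ e' ∈ s, e ≠ e' → Ind i (g e) ∨ Ind i (g e')) :
    (av fun ω => ∏ e ∈ s, g e ω) = ∏ e ∈ s, av (g e) := by
  induction s using Finset.induction_on with
  | empty => simp [av_const]
  | insert a s ha ih =>
    simp only [prod_insert ha]
    rw [av_mul_indep, ih]
    · intro i e he e' he' hne
      exact h i e (mem_insert_of_mem he) e' (mem_insert_of_mem he') hne
    · intro i
      by_cases hi : Ind i (g a)
      · exact Or.inl hi
      · refine Or.inr (Ind.prod fun e he => ?_)
        exact (h i a (mem_insert_self _ _) e (mem_insert_of_mem he)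
          (fun h' => ha (h' ▸ he))).resolve_left hi

lemma av_prod_ge {κ : Type} [DecidableEq κ] (s : Finset κ) (g : κ → (V → α) → ℚ)
    (h0 : ∀ e ∈ s, ∀ ω, 0 ≤ g e ω)
    (h : ∀ i, (∀ e ∈ s, Mono i (g e)) ∨
      ∀ e ∈ s, ∀ e' ∈ s, e ≠ e' → Ind i (g e) ∨ Ind i (g e')) :
    ∏ e ∈ s, av (g e) ≤ av fun ω => ∏ e ∈ s, g e ω := by
  induction s using Finset.induction_on with
  | empty => simp [av_const]
  | insert a s ha ih =>
    simp only [prod_insert ha]
    have ih' := ih (fun e he => h0 e (mem_insert_of_mem he)) (fun i => (h i).imp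
      (fun hm e he => hm e (mem_insert_of_mem he))
      (fun hm e he e' he' hne => hm e (mem_insert_of_mem he) e' (mem_insert_of_mem he') hne))
    refine le_trans (mul_le_mul_of_nonneg_left ih'
      (av_nonneg (h0 a (mem_insert_self _ _)))) (harris _ _ ?_)
    intro i
    rcases h i with hm | hm
    · refine Or.inl ⟨hm a (mem_insert_self _ _), ?_⟩
      intro ω x y hxy
      exact prod_le_prod (fun e he => h0 e (mem_insert_of_mem he) _)
        (fun e he => hm e (mem_insert_of_mem he) ω x y hxy)
    · by_cases hi : Ind i (g a)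
      · exact Or.inr (Or.inl hi)
      · refine Or.inr (Or.inr (Ind.prod fun e he => ?_))
        exact (hm a (mem_insert_self _ _) e (mem_insert_of_mem he)
          (fun h' => ha (h' ▸ he))).resolve_left hi

end Pool.Agent.P.MP_b2082d_co
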