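import Pool.Agent.P.MP_b2082d_co.Basic
import Pool.Agent.P.MP_b2082d_co.Harris

set_option linter.unusedSectionVars false

namespace Pool.Agent.P.MP_b2082d_co

open Finset Function

variable {V ι : Type} [Fintype V] [DecidableEq V] [Fintype ι] [DecidableEq ι]

abbrev L := Fin 60

def tau : L := 16

lemma av_cond' (i : V) (Φ : L → (V → L) → ℚ) (h : ∀ a, Ind i (Φ a)) :
    (av fun ω => Φ (ω i) ω) = (∑ a, av (Φ a)) / 60 := by
  rw [av_cond i]
  simp only [update_self, Fintype.card_fin, Nat.cast_ofNat]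
  congr 1
  apply sum_congr rfl
  intro a _
  congr 1
  funext ω
  exact h a ω a

def allGe (A : Finset V) (m : L) (ω : V → L) : ℚ := ∏ y ∈ A, if m ≤ ω y then 1 else 0

lemma allGe_eq (A : Finset V) (m : L) (ω : V → L) :
    allGe A m ω = if ∀ y ∈ A, m ≤ ω y then 1 else 0 := by
  unfold allGe
  rw [prod_boole]
  congr

lemma allGe_nonneg (A : Finset V) (m : L) (ω : V → L) : 0 ≤ allGe A m ω := by
  rw [allGe_eq]; split_ifs <;> norm_num

lemma allGe_le (A : Finset V) (m : L) (ω : V → L) : allGe A m ω ≤ 1 := by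
  rw [allGe_eq]; split_ifs <;> norm_num

lemma allGe_ind {A : Finset V} {z : V} (hz : z ∉ A) (m : L) : Ind z (allGe A m) := by
  intro ω a
  apply prod_congr rfl
  intro y hy
  rw [update_of_ne (show y ≠ z from fun h => hz (h ▸ hy))]

lemma allGe_mono (A : Finset V) (z : V) (m : L) : Mono z (allGe A m) := by
  intro ω a b hab
  apply prod_le_prod
  · intro y _; split_ifs <;> norm_num
  · intro y _
    by_cases hy : y = z
    · subst hy
      simp only [update_self]
      by_cases h : m ≤ a
      · simp [h, h.trans hab]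
      · simp only [h, if_false]; split_ifs <;> norm_num
    · simp [update_of_ne hy]

def sv (m : L) : ℚ := ((∑ a : L, if m ≤ a then 1 else 0) / 60) ^ 3

lemma av_allGe {A : Finset V} (hA : A.card = 3) (m : L) : av (allGe A m) = sv m := by
  have := av_prod_indep (α := L) A (fun y ω => if m ≤ ω y then (1 : ℚ) else 0) (by
    intro i e _ e' _ hne
    by_cases h : i = e
    · right; intro ω a; simp only; rw [update_of_ne (fun h' => hne (h.symm.trans h'.symm))]
    · left; intro ω a; simp only; rw [update_of_ne (fun h' => h h'.symm)])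
  unfold allGe
  rw [this]
  have h2 : ∀ y : V, (av fun ω : V → L => if m ≤ ω y then (1 : ℚ) else 0)
      = (∑ a : L, if m ≤ a then 1 else 0) / 60 := by
    intro y
    have := av_coord (α := L) y (fun a => if m ≤ a then (1 : ℚ) else 0)
    simpa using this
  simp only [h2, prod_const, hA, sv]

def notMin (E : ι → Finset V) (x : V) (J : Finset ι) (m : L) (ω : V → L) : ℚ :=
  ∏ j ∈ J, (1 - allGe ((E j).erase x) m ω)

lemma notMin_nonneg (E : ι → Finset V) (x : V) (J : Finset ι) (m : L) (ω : V → L) :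
    0 ≤ notMin E x J m ω :=
  prod_nonneg fun _ _ => sub_nonneg.mpr (allGe_le _ _ _)

lemma notMin_le (E : ι → Finset V) (x : V) (J : Finset ι) (m : L) (ω : V → L) :
    notMin E x J m ω ≤ 1 :=
  prod_le_one (fun _ _ => sub_nonneg.mpr (allGe_le _ _ _))
    (fun _ _ => by linarith [allGe_nonneg ((E ‹ι›).erase x) m ω])

lemma notMin_ind {E : ι → Finset V} {x z : V} {J : Finset ι}
    (hz : ∀ j ∈ J, z ∉ (E j).erase x) (m : L) : Ind z (notMin E x J m) := by
  intro ω a
  apply prod_congr rfl
  intro j hj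
  rw [allGe_ind (hz j hj)]

lemma notMin_anti (E : ι → Finset V) (x z : V) (J : Finset ι) (m : L) (ω : V → L) {a b : L}
    (hab : a ≤ b) : notMin E x J m (update ω z b) ≤ notMin E x J m (update ω z a) :=
  prod_le_prod (fun _ _ => sub_nonneg.mpr (allGe_le _ _ _))
    (fun j _ => by linarith [allGe_mono ((E j).erase x) z m ω a b hab])

section
variable {E : ι → Finset V}

lemma lin_two (hl : ∀ i j, i ≠ j → (E i ∩ E j).card ≤ 1) {i j : ι} {x y : V} (hij : i ≠ j)
    (h1 : x ∈ E i) (h2 : x ∈ E j) (h3 : y ∈ E i) (h4 : y ∈ E j) : x = y :=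
  card_le_one.mp (hl i j hij) x (mem_inter.mpr ⟨h1, h2⟩) y (mem_inter.mpr ⟨h3, h4⟩)

lemma av_notMin (hu : ∀ i, (E i).card = 4) (hl : ∀ i j, i ≠ j → (E i ∩ E j).card ≤ 1)
    (x : V) (J : Finset ι) (hJ : ∀ j ∈ J, x ∈ E j) (m : L) :
    av (notMin E x J m) = (1 - sv m) ^ J.card := by
  have := av_prod_indep (α := L) J (fun j ω => 1 - allGe ((E j).erase x) m ω) (by
    intro z e he e' he' hne
    by_cases h : z ∈ (E e).erase x
    · right
      have : z ∉ (E e').erase x := by
        intro h'
        rw [mem_erase] at h h'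
        exact h.1 (lin_two hl hne h.2 h'.2 (hJ e he) (hJ e' he'))
      intro ω a; simp only; rw [allGe_ind this]
    · left; intro ω a; simp only; rw [allGe_ind h])
  unfold notMin
  rw [this, prod_congr rfl (g := fun _ => 1 - sv m), prod_const]
  intro j hj
  rw [av_sub, av_const, av_allGe]
  rw [card_erase_of_mem (hJ j hj), hu]

def star (E : ι → Finset V) (x : V) : Finset ι := univ.filter fun i => x ∈ E i

def hphi (E : ι → Finset V) (x : V) (i : ι) (a m : L) (ω : V → L) : ℚ :=
  if a ≤ m then (if tau ≤ m then notMin E x ((star E x).erase i) m ω else 1) else 0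

def hfun (E : ι → Finset V) (x : V) (i : ι) (a : L) (ω : V → L) : ℚ := hphi E x i a (ω x) ω

def bv (a : L) : ℚ :=
  (∑ m : L, if a ≤ m then (if tau ≤ m then (1 - sv m) ^ 3 else 1) else 0) / 60

lemma hfun_nonneg (x : V) (i : ι) (a : L) (ω : V → L) : 0 ≤ hfun E x i a ω := by
  unfold hfun hphi
  split_ifs
  · exact notMin_nonneg _ _ _ _ _
  · norm_num
  · norm_num

lemma hfun_le (x : V) (i : ι) (a : L) (ω : V → L) : hfun E x i a ω ≤ 1 := by
  unfold hfun hphi
  split_ifs
  · exact notMin_le _ _ _ _ _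
  · norm_num
  · norm_num

lemma hfun_ind {x z : V} {i : ι} (hzx : z ≠ x) (hz : ∀ j, j ≠ i → x ∈ E j → z ∉ E j) (a : L) :
    Ind z (hfun E x i a) := by
  intro ω b
  unfold hfun hphi
  rw [update_of_ne hzx.symm, notMin_ind]
  intro j hj h
  simp only [star, mem_erase, mem_filter, mem_univ, true_and] at hj h
  exact hz j hj.1 hj.2 h.2

lemma hfun_anti {x z : V} (i : ι) (hzx : z ≠ x) (c : L) (ω : V → L) {a b : L} (hab : a ≤ b) :
    hfun E x i c (update ω z b) ≤ hfun E x i c (update ω z a) := by
  unfold hfun hphi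
  simp only [update_of_ne hzx.symm]
  split_ifs
  · exact notMin_anti _ _ _ _ _ _ hab
  · exact le_rfl
  · exact le_rfl

lemma av_hfun (hu : ∀ i, (E i).card = 4) (hr : ∀ v, (star E v).card = 4)
    (hl : ∀ i j, i ≠ j → (E i ∩ E j).card ≤ 1) {x : V} {i : ι} (hx : x ∈ E i) (a : L) :
    av (hfun E x i a) = bv a := by
  unfold hfun
  rw [av_cond' x (hphi E x i a)]
  · unfold bv
    congr 1
    apply sum_congr rfl
    intro m _
    unfold hphi
    split_ifs
    · have := av_notMin hu hl x ((star E x).erase i) (by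
        intro j hj
        simp only [star, mem_erase, mem_filter, mem_univ, true_and] at hj
        exact hj.2) m
      rw [card_erase_of_mem (by simp [star, hx]), hr] at this
      exact this
    · exact av_const _
    · exact av_const _
  · intro m ω b
    unfold hphi
    rw [notMin_ind]
    intro j _ h
    simp at h

def gfun (E : ι → Finset V) (u : V) (i : ι) (a : L) (ω : V → L) : ℚ :=
  1 - ∏ x ∈ (E i).erase u, hfun E x i a ω

lemma gfun_nonneg (u : V) (i : ι) (a : L) (ω : V → L) : 0 ≤ gfun E u i a ω :=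
  sub_nonneg.mpr (prod_le_one (fun _ _ => hfun_nonneg _ _ _ _) fun _ _ => hfun_le _ _ _ _)

lemma gfun_le (u : V) (i : ι) (a : L) (ω : V → L) : gfun E u i a ω ≤ 1 := by
  unfold gfun
  have : 0 ≤ ∏ x ∈ (E i).erase u, hfun E x i a ω := prod_nonneg fun _ _ => hfun_nonneg _ _ _ _
  linarith

def NoTri (E : ι → Finset V) : Prop :=
  ∀ i j k : ι, ∀ a b c : V, i ≠ j → j ≠ k → i ≠ k → a ≠ b → b ≠ c → a ≠ c →
    a ∈ E i → a ∈ E j → b ∈ E j → b ∈ E k → c ∈ E k → c ∈ E i → False

lemma av_gfun (hu : ∀ i, (E i).card = 4) (hr : ∀ v, (star E v).card = 4)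
    (hl : ∀ i j, i ≠ j → (E i ∩ E j).card ≤ 1) (ht : NoTri E) {u : V} {i : ι} (hi : u ∈ E i)
    (a : L) : av (gfun E u i a) = 1 - bv a ^ 3 := by
  unfold gfun
  rw [av_sub, av_const, av_prod_indep ((E i).erase u) (fun x => hfun E x i a)]
  · rw [prod_congr rfl (g := fun _ => bv a), prod_const, card_erase_of_mem hi, hu]
    intro x hx
    exact av_hfun hu hr hl (mem_of_mem_erase hx) a
  · intro z x hx x' hx' hne
    have hx := mem_of_mem_erase hx
    have hx' := mem_of_mem_erase hx'
    by_cases h1 : z = x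
    · right
      subst h1
      refine hfun_ind hne (fun j hj h2 h3 => hne (lin_two hl hj h3 hx h2 hx')) a
    by_cases h2 : z = x'
    · left
      subst h2
      refine hfun_ind h1 (fun j hj h2 h3 => hne (lin_two hl hj h2 hx h3 hx')) a
    by_cases h3 : ∀ j, j ≠ i → x ∈ E j → z ∉ E j
    · exact Or.inl (hfun_ind h1 h3 a)
    · right
      push Not at h3
      obtain ⟨j, hj, hxj, hzj⟩ := h3
      refine hfun_ind h2 (fun k hk hxk hzk => ?_) a
      by_cases hjk : j = k
      · subst hjk
        exact hne (lin_two hl hj hxj hx hxk hx')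
      · exact ht i j k x z x' hj.symm hjk hk.symm (fun h => h1 h.symm) h2 hne hx hxj hzj hzk hxk hx'

lemma gfun_ind {u z : V} {i : ι} (hz : z ∉ (E i).erase u)
    (h : ∀ x ∈ (E i).erase u, ∀ j, j ≠ i → x ∈ E j → z ∉ E j) (a : L) : Ind z (gfun E u i a) := by
  intro ω b
  unfold gfun
  congr 1
  apply prod_congr rfl
  intro x hx
  exact hfun_ind (show z ≠ x from fun h' => hz (h' ▸ hx)) (h x hx) a ω b

lemma av_gprod (hu : ∀ i, (E i).card = 4) (hr : ∀ v, (star E v).card = 4)
    (hl : ∀ i j, i ≠ j → (E i ∩ E j).card ≤ 1) (ht : NoTri E) (u : V) (a : L) :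
    (1 - bv a ^ 3) ^ 4 ≤ av fun ω => ∏ i ∈ star E u, gfun E u i a ω := by
  have hmem : ∀ i ∈ star E u, u ∈ E i := by intro i hi; simpa [star] using hi
  refine le_trans (le_of_eq ?_) (av_prod_ge (star E u) (fun i => gfun E u i a)
    (fun i _ ω => gfun_nonneg u i a ω) ?_)
  · rw [prod_congr rfl (g := fun _ => 1 - bv a ^ 3), prod_const, hr]
    intro i hi
    exact av_gfun hu hr hl ht (hmem i hi) a
  · intro z
    by_cases hz : ∃ i ∈ star E u, z ∈ (E i).erase u
    · right
      obtain ⟨i, hi, hzi⟩ := hz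
      have key : ∀ e ∈ star E u, e ≠ i → Ind z (gfun E u e a) := by
        intro e he hei
        rw [mem_erase] at hzi
        apply gfun_ind
        · intro h
          rw [mem_erase] at h
          exact h.1 (lin_two hl hei h.2 hzi.2 (hmem e he) (hmem i hi))
        · intro x hx j hj hxj hzj
          rw [mem_erase] at hx
          by_cases hji : j = i
          · subst hji
            exact hx.1 (lin_two hl hei hx.2 hxj (hmem e he) (hmem j hi))
          · have hzx : x ≠ z := by
              intro h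
              subst h
              exact hx.1 (lin_two hl hei hx.2 hzi.2 (hmem e he) (hmem i hi))
            exact ht i e j u x z hei.symm hj.symm (fun h => hji h.symm) hx.1.symm hzx hzi.1.symm
              (hmem i hi) (hmem e he) hx.2 hxj hzj hzi.2
      intro e he e' he' hne
      by_cases h : e = i
      · exact Or.inr (key e' he' (fun h' => hne (h.trans h'.symm)))
      · exact Or.inl (key e he h)
    · left
      push Not at hz
      intro i hi ω b c hbc
      unfold gfun
      have : ∏ x ∈ (E i).erase u, hfun E x i a (update ω z c) ≤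
          ∏ x ∈ (E i).erase u, hfun E x i a (update ω z b) :=
        prod_le_prod (fun _ _ => hfun_nonneg _ _ _ _)
          (fun x hx => hfun_anti i (show z ≠ x from fun h => hz i hi (h ▸ hx)) a ω hbc)
      linarith

def Keeper (E : ι → Finset V) (ω : V → L) (v : V) : Prop :=
  tau ≤ ω v ∧ ∃ i, v ∈ E i ∧ ∀ x ∈ E i, ω v ≤ ω x

open Classical in
noncomputable def tr (E : ι → Finset V) (ω : V → L) : Finset V :=
  univ.filter fun v => Keeper E ω v ∨ (ω v < tau ∧ ∃ i, v ∈ E i ∧ (∀ x ∈ E i, ω v ≤ ω x) ∧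
    ∀ x ∈ E i, ¬ Keeper E ω x)

lemma tr_transversal (hu : ∀ i, (E i).card = 4) (ω : V → L) : IsTransversal E (tr E ω) := by
  intro i
  have hne : (E i).Nonempty := card_pos.mp (by rw [hu]; norm_num)
  obtain ⟨v, hv, hmin⟩ := exists_min_image (E i) ω hne
  by_cases hk : ∃ x ∈ E i, Keeper E ω x
  · obtain ⟨x, hx, hk⟩ := hk
    exact ⟨x, by simp [tr, hx, hk]⟩
  · push Not at hk
    refine ⟨v, ?_⟩
    simp only [tr, mem_inter, mem_filter, mem_univ, true_and, hv, and_true]
    right
    refine ⟨?_, i, hv, hmin, hk⟩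
    by_contra h
    exact hk v hv ⟨not_lt.mp h, i, hv, hmin⟩

def bigPhi (E : ι → Finset V) (u : V) (a : L) (ω : V → L) : ℚ :=
  if tau ≤ a then notMin E u (star E u) a ω else ∏ i ∈ star E u, gfun E u i a ω

lemma bigPhi_le_one (u : V) (a : L) (ω : V → L) : bigPhi E u a ω ≤ 1 := by
  unfold bigPhi
  split_ifs
  · exact notMin_le _ _ _ _ _
  · exact prod_le_one (fun _ _ => gfun_nonneg _ _ _ _) fun _ _ => gfun_le _ _ _ _

lemma bigPhi_zero (u : V) (ω : V → L) (h : u ∈ tr E ω) : bigPhi E u (ω u) ω = 0 := by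
  simp only [tr, mem_filter, mem_univ, true_and] at h
  unfold bigPhi
  rcases h with ⟨h1, i, hi, hmin⟩ | ⟨h1, i, hi, hmin, hk⟩
  · rw [if_pos h1]
    apply prod_eq_zero (i := i) (by simp [star, hi])
    rw [allGe_eq, if_pos (fun y hy => hmin y (mem_of_mem_erase hy))]
    norm_num
  · rw [if_neg (not_le.mpr h1)]
    apply prod_eq_zero (i := i) (by simp [star, hi])
    unfold gfun
    rw [prod_eq_one, sub_self]
    intro x hx
    have hx := mem_of_mem_erase hx
    unfold hfun hphi
    rw [if_pos (hmin x hx)]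
    split_ifs with h2
    · apply prod_eq_one
      intro j hj
      simp only [star, mem_erase, mem_filter, mem_univ, true_and] at hj
      rw [allGe_eq, if_neg, sub_zero]
      intro h3
      apply hk x hx
      refine ⟨h2, j, hj.2, fun y hy => ?_⟩
      by_cases hyx : y = x
      · rw [hyx]
      · exact h3 y (mem_erase.mpr ⟨hyx, hy⟩)
    · rfl

lemma bigPhi_ind (hl : ∀ i j, i ≠ j → (E i ∩ E j).card ≤ 1) (u : V) (a : L) :
    Ind u (bigPhi E u a) := by
  intro ω b
  unfold bigPhi
  split_ifs
  · exact notMin_ind (fun j _ h => by simp at h) a ω b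
  · apply prod_congr rfl
    intro i hi
    have hi : u ∈ E i := by simpa [star] using hi
    refine gfun_ind (by simp) (fun x hx j hj hxj huj => ?_) a ω b
    rw [mem_erase] at hx
    exact hx.1 (lin_two hl hj hxj hx.2 huj hi)

def total : ℚ := (∑ a : L, if tau ≤ a then (1 - sv a) ^ 4 else (1 - bv a ^ 3) ^ 4) / 60

lemma total_ge : 4 / 7 ≤ total := by decide +kernel

lemma av_notin (hu : ∀ i, (E i).card = 4) (hr : ∀ v, (star E v).card = 4)
    (hl : ∀ i j, i ≠ j → (E i ∩ E j).card ≤ 1) (ht : NoTri E) (u : V) :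
    4 / 7 ≤ av fun ω => if u ∈ tr E ω then (0 : ℚ) else 1 := by
  refine total_ge.trans (le_trans ?_ (av_mono (f := fun ω => bigPhi E u (ω u) ω) ?_))
  · rw [av_cond' u _ (bigPhi_ind hl u)]
    unfold total
    apply div_le_div_of_nonneg_right _ (by norm_num)
    apply sum_le_sum
    intro a _
    unfold bigPhi
    split_ifs
    · have := av_notMin hu hl u (star E u) (by intro j hj; simpa [star] using hj) a
      rw [hr] at this
      exact this.ge
    · exact av_gprod hu hr hl ht u a
  · intro ω
    split_ifs with h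
    · exact (bigPhi_zero u ω h).le
    · exact bigPhi_le_one _ _ _

theorem girth_bound [Nonempty ι] (hu : ∀ i, (E i).card = 4) (hr : ∀ v, (star E v).card = 4)
    (hl : ∀ i j, i ≠ j → (E i ∩ E j).card ≤ 1) (ht : NoTri E) : (7 / 3 : ℝ) ≤ FDT E := by
  have := le_FDT E (Classical.arbitrary ι) ((univ : Finset (V → L)).val.map (tr E))
    (by simp [univ_nonempty.ne_empty]) (by
      intro T hT
      rw [Multiset.mem_map] at hT
      obtain ⟨ω, -, rfl⟩ := hT
      exact tr_transversal hu ω) (3 / 7) (by norm_num) (by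
      intro v
      have h1 := av_notin hu hr hl ht v
      have hpos := card_pos' (V := V) (α := L)
      unfold av at h1
      rw [le_div_iff₀ hpos] at h1
      have h2 : (∑ ω : V → L, if v ∈ tr E ω then (0 : ℚ) else 1) +
          (∑ ω : V → L, if v ∈ tr E ω then (1 : ℚ) else 0) = Fintype.card (V → L) := by
        rw [← sum_add_distrib, sum_congr rfl (g := fun _ => (1 : ℚ))]
        · simp
        · intro ω _; split_ifs <;> norm_num
      have h3 : ((((univ : Finset (V → L)).val.map (tr E)).countP fun T => v ∈ T : ℕ) : ℚ)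
          = ∑ ω : V → L, if v ∈ tr E ω then (1 : ℚ) else 0 := by
        rw [Multiset.countP_map, sum_boole]
        rfl
      rw [h3, Multiset.card_map]
      have h4 : (Multiset.card (univ : Finset (V → L)).val : ℚ) = Fintype.card (V → L) := rfl
      rw [h4]
      linarith)
  norm_num at this
  exact this

end

end Pool.Agent.P.MP_b2082d_co
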