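import Pool.Agent.P.MP_b2082d_co.Girth

namespace Pool.Agent.Results.MP_b2082d_co.GirthFour

open Pool.Agent.P.MP_b2082d_co

/-- The Henning-Yeo bound holds for linear triangle-free 4-regular 4-uniform hypergraphs. -/
theorem result {V ι : Type} [Fintype V] [DecidableEq V] [Fintype ι] [Nonempty ι]
    (E : ι → Finset V)
    (uniform : ∀ i, (E i).card = 4)
    (regular : ∀ v, (Finset.univ.filter fun i => v ∈ E i).card = 4)
    (linear : ∀ i j, i ≠ j → (E i ∩ E j).card ≤ 1)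
    (noTriangle : ¬ ∃ (i j k : ι) (a b c : V), i ≠ j ∧ j ≠ k ∧ i ≠ k ∧ a ≠ b ∧ b ≠ c ∧ a ≠ c ∧
      a ∈ E i ∩ E j ∧ b ∈ E j ∩ E k ∧ c ∈ E k ∩ E i) :
    (7 / 3 : ℝ) ≤ FDT E := by
  classical
  refine girth_bound uniform regular linear ?_
  intro i j k a b c h1 h2 h3 h4 h5 h6 g1 g2 g3 g4 g5 g6
  exact noTriangle ⟨i, j, k, a, b, c, h1, h2, h3, h4, h5, h6, Finset.mem_inter.mpr ⟨g1, g2⟩,
    Finset.mem_inter.mpr ⟨g3, g4⟩, Finset.mem_inter.mpr ⟨g5, g6⟩⟩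

end Pool.Agent.Results.MP_b2082d_co.GirthFour
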